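import Pool.Agent.H23.GB.Targets
import Pool.Agent.H54.GA.AP
import Pool.Agent.H27.GW.GF

/-!
# Perfect spanning sets of radius 5 and 7: growth of the balls (`T_AA`)
-/

set_option autoImplicit false

open Finset Polynomial
open scoped Classical

namespace Pool.Agent.H92.GB

open Pool.Agent.H23.GW Pool.Agent.H23.GA Pool.Agent.H23.GB

theorem aa_upper (m : ℕ) : ∀ s : ℕ, aa m s ≤ (2 * m + 1) ^ s := by
  intro s
  induction s using Nat.strong_induction_on with
  | _ s ih =>
    cases s with
    | zero => rw [Pool.Agent.H54.GA.aa_zero, pow_zero]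
    | succ n =>
      have h := Pool.Agent.H54.GA.aa_rec Pool.Agent.H27.GW.gf m n
      have h1 : ∑ k ∈ range (n + 1), (if Even k then 2 * (m : ℤ) + 1 else 1) * (aa m (n - k) : ℤ)
          ≤ ∑ k ∈ range (n + 1), (2 * (m : ℤ) + 1) ^ (n + 1) := by
        apply Finset.sum_le_sum
        intro k hk
        rw [Finset.mem_range] at hk
        have h2 : (aa m (n - k) : ℤ) ≤ (2 * (m : ℤ) + 1) ^ (n - k) := by
          exact_mod_cast ih (n - k) (by omega)
        have h3 : (if Even k then 2 * (m : ℤ) + 1 else 1) ≤ 2 * (m : ℤ) + 1 := by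
          split_ifs
          · exact le_rfl
          · have : (0 : ℤ) ≤ m := Int.natCast_nonneg m
            linarith
        have h4 : (1 : ℤ) ≤ 2 * (m : ℤ) + 1 := by
          have : (0 : ℤ) ≤ m := Int.natCast_nonneg m
          linarith
        calc (if Even k then 2 * (m : ℤ) + 1 else 1) * (aa m (n - k) : ℤ)
            ≤ (2 * (m : ℤ) + 1) * (2 * (m : ℤ) + 1) ^ (n - k) := by
              apply mul_le_mul h3 h2 (by positivity) (by positivity)
          _ = (2 * (m : ℤ) + 1) ^ (n - k + 1) := by rw [pow_succ]; ring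
          _ ≤ (2 * (m : ℤ) + 1) ^ (n + 1) := pow_le_pow_right₀ h4 (by omega)
      rw [Finset.sum_const, Finset.card_range, nsmul_eq_mul] at h1
      rw [← h] at h1
      push_cast at h1
      have h5 : (aa m (n + 1) : ℤ) ≤ (2 * (m : ℤ) + 1) ^ (n + 1) :=
        le_of_mul_le_mul_left h1 (by positivity)
      exact_mod_cast h5

theorem aa_lower (m : ℕ) : ∀ s : ℕ, (2 * m + 1) ^ s ≤ s.factorial * aa m s := by
  intro s
  induction s with
  | zero => simp [Pool.Agent.H54.GA.aa_zero]
  | succ n ih =>
    have h := Pool.Agent.H54.GA.aa_rec Pool.Agent.H27.GW.gf m n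
    have h1 : (2 * (m : ℤ) + 1) * (aa m n : ℤ) ≤
        ∑ k ∈ range (n + 1), (if Even k then 2 * (m : ℤ) + 1 else 1) * (aa m (n - k) : ℤ) := by
      have h2 := Finset.single_le_sum (s := range (n + 1))
        (f := fun k => (if Even k then 2 * (m : ℤ) + 1 else 1) * (aa m (n - k) : ℤ)) (by
          intro k _
          split_ifs <;> positivity) (Finset.mem_range.2 (Nat.succ_pos n))
      simpa using h2
    rw [← h] at h1
    have h3 : (2 * m + 1) * aa m n ≤ (n + 1) * aa m (n + 1) := by exact_mod_cast h1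
    calc (2 * m + 1) ^ (n + 1) = (2 * m + 1) * (2 * m + 1) ^ n := by ring
      _ ≤ (2 * m + 1) * (n.factorial * aa m n) := by gcongr
      _ = n.factorial * ((2 * m + 1) * aa m n) := by ring
      _ ≤ n.factorial * ((n + 1) * aa m (n + 1)) := by gcongr
      _ = (n + 1).factorial * aa m (n + 1) := by rw [Nat.factorial_succ]; ring

/-- (AA) growth of the balls. -/
theorem aa_thm : T_AA := by
  refine ⟨fun s hs => ⟨1 / (s.factorial : ℝ), by positivity, fun m => ?_⟩, fun s m => aa_upper m s⟩
  have h1 := aa_lower m s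
  have h2 : (m : ℝ) ^ 5 ≤ s.factorial * aa m s := by
    have h3 : (m : ℝ) ^ 5 ≤ (2 * (m : ℝ) + 1) ^ s := by
      calc (m : ℝ) ^ 5 ≤ (2 * (m : ℝ) + 1) ^ 5 := by
            gcongr
            have : (0 : ℝ) ≤ m := Nat.cast_nonneg m
            linarith
        _ ≤ (2 * (m : ℝ) + 1) ^ s := by
            apply pow_le_pow_right₀ _ hs
            have : (0 : ℝ) ≤ m := Nat.cast_nonneg m
            linarith
    have h4 : (2 * (m : ℝ) + 1) ^ s ≤ s.factorial * aa m s := by exact_mod_cast h1
    linarith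
  rw [div_mul_eq_mul_div, one_mul, div_le_iff₀ (by positivity)]
  linarith

end Pool.Agent.H92.GB
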