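import Pool.Agent.H23.GB.Targets
import Pool.Agent.H42.GA.LC

/-!
# Perfect spanning sets of radius 5 and 7: the dichotomies (`T_D5`, `T_D7`)
-/

set_option autoImplicit false

open Finset Polynomial
open scoped Classical

namespace Pool.Agent.H92.GB

open Pool.Agent.H23.GW Pool.Agent.H23.GA Pool.Agent.H23.GB Pool.Agent.H42.GA

lemma e1 (u : ℕ → ℝ) (m : ℝ) : bb u m 1 = u 1 := by
  have h := bb_succ u m 0
  simp [ff, bb_zero] at h
  exact h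

lemma e2 (u : ℕ → ℝ) (m : ℝ) : 2 * bb u m 2 = u 1 ^ 2 + (u 2 - 2 * m) := by
  have h := bb_succ u m 1
  simp only [Finset.sum_range_succ, Finset.sum_range_zero, ff] at h
  rw [if_neg (by decide), if_pos (by decide)] at h
  simp only [Nat.sub_zero, Nat.sub_self, bb_zero, e1] at h
  push_cast at h
  linarith

lemma e3 (u : ℕ → ℝ) (m : ℝ) : 6 * bb u m 3 = u 1 ^ 3 + 3 * u 1 * (u 2 - 2 * m) + 2 * u 3 := by
  have h := bb_succ u m 2
  simp only [Finset.sum_range_succ, Finset.sum_range_zero, ff] at h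
  rw [if_neg (by decide), if_pos (by decide), if_neg (by decide)] at h
  norm_num [bb_zero, e1] at h
  have h2 := e2 u m
  have : bb u m 2 = (u 1 ^ 2 + (u 2 - 2 * m)) / 2 := by linarith
  rw [this] at h
  linear_combination 2 * h

lemma e4 (u : ℕ → ℝ) (m : ℝ) : 24 * bb u m 4 = u 1 ^ 4 + 6 * u 1 ^ 2 * (u 2 - 2 * m)
    + 3 * (u 2 - 2 * m) ^ 2 + 8 * u 1 * u 3 + 6 * (u 4 - 2 * m) := by
  have h := bb_succ u m 3
  simp only [Finset.sum_range_succ, Finset.sum_range_zero, ff] at h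
  rw [if_neg (by decide), if_pos (by decide), if_neg (by decide), if_pos (by decide)] at h
  norm_num [bb_zero, e1] at h
  have h2 : bb u m 2 = (u 1 ^ 2 + (u 2 - 2 * m)) / 2 := by linarith [e2 u m]
  have h3 : bb u m 3 = (u 1 ^ 3 + 3 * u 1 * (u 2 - 2 * m) + 2 * u 3) / 6 := by linarith [e3 u m]
  rw [h2, h3] at h
  linear_combination 6 * h

lemma e5 (u : ℕ → ℝ) (m : ℝ) : 120 * bb u m 5 = u 1 ^ 5 + 10 * u 1 ^ 3 * (u 2 - 2 * m)
    + 20 * u 1 ^ 2 * u 3 + 15 * u 1 * (u 2 - 2 * m) ^ 2 + 30 * u 1 * (u 4 - 2 * m)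
    + 20 * (u 2 - 2 * m) * u 3 + 24 * u 5 := by
  have h := bb_succ u m 4
  simp only [Finset.sum_range_succ, Finset.sum_range_zero, ff] at h
  rw [if_neg (by decide), if_pos (by decide), if_neg (by decide), if_pos (by decide),
    if_neg (by decide)] at h
  norm_num [bb_zero, e1] at h
  have h2 : bb u m 2 = (u 1 ^ 2 + (u 2 - 2 * m)) / 2 := by linarith [e2 u m]
  have h3 : bb u m 3 = (u 1 ^ 3 + 3 * u 1 * (u 2 - 2 * m) + 2 * u 3) / 6 := by linarith [e3 u m]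
  have h4 : bb u m 4 = (u 1 ^ 4 + 6 * u 1 ^ 2 * (u 2 - 2 * m)
    + 3 * (u 2 - 2 * m) ^ 2 + 8 * u 1 * u 3 + 6 * (u 4 - 2 * m)) / 24 := by linarith [e4 u m]
  rw [h2, h3, h4] at h
  linear_combination 24 * h

lemma e6 (u : ℕ → ℝ) (m : ℝ) : 720 * bb u m 6 = u 1 ^ 6 + 15 * u 1 ^ 4 * (u 2 - 2 * m)
    + 40 * u 1 ^ 3 * u 3 + 45 * u 1 ^ 2 * (u 2 - 2 * m) ^ 2 + 90 * u 1 ^ 2 * (u 4 - 2 * m)
    + 120 * u 1 * (u 2 - 2 * m) * u 3 + 144 * u 1 * u 5 + 15 * (u 2 - 2 * m) ^ 3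
    + 90 * (u 2 - 2 * m) * (u 4 - 2 * m) + 40 * u 3 ^ 2 + 120 * (u 6 - 2 * m) := by
  have h := bb_succ u m 5
  simp only [Finset.sum_range_succ, Finset.sum_range_zero, ff] at h
  rw [if_neg (by decide), if_pos (by decide), if_neg (by decide), if_pos (by decide),
    if_neg (by decide), if_pos (by decide)] at h
  norm_num [bb_zero, e1] at h
  have h2 : bb u m 2 = (u 1 ^ 2 + (u 2 - 2 * m)) / 2 := by linarith [e2 u m]
  have h3 : bb u m 3 = (u 1 ^ 3 + 3 * u 1 * (u 2 - 2 * m) + 2 * u 3) / 6 := by linarith [e3 u m]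
  have h4 : bb u m 4 = (u 1 ^ 4 + 6 * u 1 ^ 2 * (u 2 - 2 * m)
    + 3 * (u 2 - 2 * m) ^ 2 + 8 * u 1 * u 3 + 6 * (u 4 - 2 * m)) / 24 := by linarith [e4 u m]
  have h5 : bb u m 5 = (u 1 ^ 5 + 10 * u 1 ^ 3 * (u 2 - 2 * m)
    + 20 * u 1 ^ 2 * u 3 + 15 * u 1 * (u 2 - 2 * m) ^ 2 + 30 * u 1 * (u 4 - 2 * m)
    + 20 * (u 2 - 2 * m) * u 3 + 24 * u 5) / 120 := by linarith [e5 u m]
  rw [h2, h3, h4, h5] at h
  linear_combination 120 * h

lemma e7 (u : ℕ → ℝ) (m : ℝ) : 5040 * bb u m 7 = u 1 ^ 7 + 21 * u 1 ^ 5 * (u 2 - 2 * m)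
    + 105 * u 1 ^ 3 * (u 2 - 2 * m) ^ 2 + 105 * u 1 * (u 2 - 2 * m) ^ 3 + 70 * u 1 ^ 4 * u 3
    + 420 * u 1 ^ 2 * (u 2 - 2 * m) * u 3 + 210 * (u 2 - 2 * m) ^ 2 * u 3 + 280 * u 1 * u 3 ^ 2
    + 210 * u 1 ^ 3 * (u 4 - 2 * m) + 630 * u 1 * (u 2 - 2 * m) * (u 4 - 2 * m)
    + 420 * u 3 * (u 4 - 2 * m) + 504 * u 1 ^ 2 * u 5 + 504 * (u 2 - 2 * m) * u 5
    + 840 * u 1 * (u 6 - 2 * m) + 720 * u 7 := by
  have h := bb_succ u m 6
  simp only [Finset.sum_range_succ, Finset.sum_range_zero, ff] at h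
  rw [if_neg (by decide), if_pos (by decide), if_neg (by decide), if_pos (by decide),
    if_neg (by decide), if_pos (by decide), if_neg (by decide)] at h
  norm_num [bb_zero, e1] at h
  have h2 : bb u m 2 = (u 1 ^ 2 + (u 2 - 2 * m)) / 2 := by linarith [e2 u m]
  have h3 : bb u m 3 = (u 1 ^ 3 + 3 * u 1 * (u 2 - 2 * m) + 2 * u 3) / 6 := by linarith [e3 u m]
  have h4 : bb u m 4 = (u 1 ^ 4 + 6 * u 1 ^ 2 * (u 2 - 2 * m)
    + 3 * (u 2 - 2 * m) ^ 2 + 8 * u 1 * u 3 + 6 * (u 4 - 2 * m)) / 24 := by linarith [e4 u m]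
  have h5 : bb u m 5 = (u 1 ^ 5 + 10 * u 1 ^ 3 * (u 2 - 2 * m)
    + 20 * u 1 ^ 2 * u 3 + 15 * u 1 * (u 2 - 2 * m) ^ 2 + 30 * u 1 * (u 4 - 2 * m)
    + 20 * (u 2 - 2 * m) * u 3 + 24 * u 5) / 120 := by linarith [e5 u m]
  have h6 : bb u m 6 = (u 1 ^ 6 + 15 * u 1 ^ 4 * (u 2 - 2 * m)
    + 40 * u 1 ^ 3 * u 3 + 45 * u 1 ^ 2 * (u 2 - 2 * m) ^ 2 + 90 * u 1 ^ 2 * (u 4 - 2 * m)
    + 120 * u 1 * (u 2 - 2 * m) * u 3 + 144 * u 1 * u 5 + 15 * (u 2 - 2 * m) ^ 3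
    + 90 * (u 2 - 2 * m) * (u 4 - 2 * m) + 40 * u 3 ^ 2 + 120 * (u 6 - 2 * m)) / 720 := by
    linarith [e6 u m]
  rw [h2, h3, h4, h5, h6] at h
  linear_combination 720 * h

lemma mb {x y X Y : ℝ} (hx : |x| ≤ X) (hy : |y| ≤ Y) : |x * y| ≤ X * Y := by
  rw [abs_mul]
  exact mul_le_mul hx hy (abs_nonneg _) ((abs_nonneg _).trans hx)

lemma pb {x X : ℝ} (hx : |x| ≤ X) (n : ℕ) : |x ^ n| ≤ X ^ n := by
  rw [abs_pow]
  exact pow_le_pow_left₀ (abs_nonneg _) hx n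

/-- (D5) the dichotomy for radius 5. -/
theorem d5 : T_D5 := by
  intro K₀ hK₀
  set E : ℝ := 10 * K₀ ^ 4 + 15 * K₀ ^ 3 + 120 * K₀ ^ 2 + 210 * K₀ + 192 with hE
  have hE0 : 0 < E := by positivity
  set A : ℝ := 2 * E with hA
  have hA0 : 0 < A := by positivity
  set E' : ℝ := 20 * A ^ 2 + 10 * A ^ 2 * K₀ + 60 * A + 60 * K₀ + 150 with hE'
  have hE'0 : 0 < E' := by positivity
  set K : ℝ := E + 20 * (K₀ + 2) + 24 with hK
  have hKpos : 0 < K := by positivity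
  refine ⟨K, ⌈E' ^ 2⌉₊ + 1, hKpos, ?_⟩
  intro m hm u h1 h2 h3 hz
  have hm1 : 1 ≤ m := by
    have : ((⌈E' ^ 2⌉₊ + 1 : ℕ) : ℝ) = (⌈E' ^ 2⌉₊ : ℝ) + 1 := by push_cast; ring
    rw [this] at hm
    have h0 : (0 : ℝ) ≤ (⌈E' ^ 2⌉₊ : ℝ) := Nat.cast_nonneg _
    linarith
  have hmE : E' ^ 2 ≤ m := by
    have : ((⌈E' ^ 2⌉₊ + 1 : ℕ) : ℝ) = (⌈E' ^ 2⌉₊ : ℝ) + 1 := by push_cast; ring
    rw [this] at hm
    have h0 := Nat.le_ceil (E' ^ 2)
    linarith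
  have hz' := e5 u m
  rw [show bb u m 5 = (BP u 5).eval m from rfl, hz, mul_zero] at hz'
  set r : ℝ := √m with hr
  have hr2 : r ^ 2 = m := Real.sq_sqrt (by linarith)
  have hr1 : 1 ≤ r := by rw [hr, Real.one_le_sqrt]; exact hm1
  have hrE : E' ≤ r := by
    rw [hr]
    exact Real.le_sqrt_of_sq_le hmE
  have hrm : r ≤ m := by rw [← hr2]; nlinarith
  have hm0 : 0 < m := by linarith
  have hmm : m ≤ m ^ 2 := by nlinarith
  have h3' := h3 3 le_rfl (by norm_num)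
  have h4' := h3 4 (by norm_num) (by norm_num)
  have h5' := h3 5 (by norm_num) le_rfl
  generalize u 1 = a at *
  generalize u 2 = b at *
  generalize u 3 = c at *
  generalize u 4 = d at *
  generalize u 5 = e at *
  have hkr : 0 ≤ K₀ * r := by positivity
  have hmain : |a| * |a ^ 4 - 20 * m * a ^ 2 + 60 * m ^ 2| ≤ E * m ^ 2 := by
    rw [← abs_mul]
    have t1 : |a ^ 3 * b| ≤ K₀ ^ 4 * m ^ 2 := (mb (pb h1 3) h2).trans (le_of_eq (by
      rw [← hr2]; ring))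
    have t2 : |a ^ 2 * c| ≤ 3 * K₀ ^ 2 * m ^ 2 := (mb (pb h1 2) h3').trans (le_of_eq (by
      rw [← hr2]; ring))
    have t3 : |a * b ^ 2| ≤ K₀ ^ 3 * m ^ 2 := (mb h1 (pb h2 2)).trans (by
      have : K₀ * r * (K₀ * r) ^ 2 = K₀ ^ 3 * (r * m) := by rw [← hr2]; ring
      rw [this]
      gcongr
      nlinarith)
    have t4 : |m * (a * b)| ≤ K₀ ^ 2 * m ^ 2 := by
      rw [abs_mul, abs_of_pos hm0]
      have := mb h1 h2
      calc m * |a * b| ≤ m * (K₀ * r * (K₀ * r)) := by gcongr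
        _ = K₀ ^ 2 * m ^ 2 := by rw [← hr2]; ring
    have t5 : |a * d| ≤ 3 * K₀ * m ^ 2 := (mb h1 h4').trans (by
      have : K₀ * r * (3 * m) = 3 * K₀ * (r * m) := by ring
      rw [this]
      gcongr
      nlinarith)
    have t6 : |a * m| ≤ K₀ * m ^ 2 := by
      rw [abs_mul, abs_of_pos hm0]
      calc |a| * m ≤ K₀ * r * m := by gcongr
        _ = K₀ * (r * m) := by ring
        _ ≤ K₀ * m ^ 2 := by
          gcongr
          nlinarith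
    have t7 : |b * c| ≤ 3 * K₀ * m ^ 2 := (mb h2 h3').trans (by
      have : K₀ * r * (3 * m) = 3 * K₀ * (r * m) := by ring
      rw [this]
      gcongr
      nlinarith)
    have t8 : |m * c| ≤ 3 * m ^ 2 := by
      rw [abs_mul, abs_of_pos hm0]
      nlinarith
    have t9 : |e| ≤ 3 * m ^ 2 := by linarith
    have key : a * (a ^ 4 - 20 * m * a ^ 2 + 60 * m ^ 2) = -(10 * (a ^ 3 * b) + 20 * (a ^ 2 * c)
        + 15 * (a * b ^ 2) - 60 * (m * (a * b)) + 30 * (a * d) - 60 * (a * m) + 20 * (b * c)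
        - 40 * (m * c) + 24 * e) := by
      linear_combination -hz'
    rw [key, abs_neg]
    obtain ⟨l1, r1⟩ := abs_le.1 t1
    obtain ⟨l2, r2⟩ := abs_le.1 t2
    obtain ⟨l3, r3⟩ := abs_le.1 t3
    obtain ⟨l4, r4⟩ := abs_le.1 t4
    obtain ⟨l5, r5⟩ := abs_le.1 t5
    obtain ⟨l6, r6⟩ := abs_le.1 t6
    obtain ⟨l7, r7⟩ := abs_le.1 t7
    obtain ⟨l8, r8⟩ := abs_le.1 t8
    obtain ⟨l9, r9⟩ := abs_le.1 t9
    have hEm : E * m ^ 2 = 10 * (K₀ ^ 4 * m ^ 2) + 20 * (3 * K₀ ^ 2 * m ^ 2)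
        + 15 * (K₀ ^ 3 * m ^ 2) + 60 * (K₀ ^ 2 * m ^ 2) + 30 * (3 * K₀ * m ^ 2)
        + 60 * (K₀ * m ^ 2) + 20 * (3 * K₀ * m ^ 2) + 40 * (3 * m ^ 2) + 24 * (3 * m ^ 2) := by
      rw [hE]; ring
    rw [hEm, abs_le]
    constructor <;> linarith
  constructor
  · intro hν
    have ha : r ≤ |a| := by
      have : r ^ 2 ≤ |a| ^ 2 := by
        rw [hr2, sq_abs]
        linarith
      exact le_of_sq_le_sq this (abs_nonneg _)
    have h6 : r * |a ^ 4 - 20 * m * a ^ 2 + 60 * m ^ 2| ≤ E * m ^ 2 :=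
      (mul_le_mul_of_nonneg_right ha (abs_nonneg _)).trans hmain
    have h7 : (20 * (a ^ 2 / m) - (a ^ 2 / m) ^ 2) / 60 - 1 =
        -(a ^ 4 - 20 * m * a ^ 2 + 60 * m ^ 2) / (60 * m ^ 2) := by
      field_simp
      ring
    rw [h7, abs_div, abs_neg, abs_of_pos (by positivity : 0 < 60 * m ^ 2),
      div_le_div_iff₀ (by positivity) (by positivity)]
    have h8 : E * m ^ 2 ≤ K * (60 * m ^ 2) := by
      have h9 : E ≤ K := by rw [hK]; linarith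
      have h10 : E * m ^ 2 ≤ K * m ^ 2 := by gcongr
      have h11 : 0 ≤ K * m ^ 2 := by positivity
      linarith
    linarith
  · intro hν
    have hp : 24 / 25 * m ^ 2 ≤ a ^ 4 - 20 * m * a ^ 2 + 60 * m ^ 2 := by
      have : 0 ≤ (18 / 5 * m - a ^ 2) * (20 * m - 18 / 5 * m - a ^ 2) := by
        apply mul_nonneg
        · linarith
        · nlinarith
      nlinarith
    have hA1 : |a| ≤ A := by
      have h6 : |a| * (24 / 25 * m ^ 2) ≤ E * m ^ 2 := by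
        refine le_trans ?_ hmain
        gcongr
        exact hp.trans (le_abs_self _)
      have h7 : |a| * (24 / 25) ≤ E := by
        have h8 : |a| * (24 / 25) * m ^ 2 ≤ E * m ^ 2 := by linarith
        exact le_of_mul_le_mul_right h8 (by positivity)
      rw [hA]
      linarith
    -- the bracket
    have hB : 30 * m ^ 2 ≤ a ^ 4 + 10 * a ^ 2 * (b - 2 * m) + 20 * a * c + 15 * (b - 2 * m) ^ 2
        + 30 * (d - 2 * m) := by
      have s1 : |a ^ 2 * b| ≤ A ^ 2 * K₀ * (r * m) := (mb (pb hA1 2) h2).trans (by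
        have : A ^ 2 * (K₀ * r) = A ^ 2 * K₀ * r := by ring
        rw [this]
        gcongr
        nlinarith)
      have s2 : |a ^ 2 * m| ≤ A ^ 2 * (r * m) := by
        rw [abs_mul, abs_of_pos hm0]
        have := pb hA1 2
        calc |a ^ 2| * m ≤ A ^ 2 * m := by gcongr
          _ ≤ A ^ 2 * (r * m) := by
            gcongr
            nlinarith
      have s3 : |a * c| ≤ 3 * A * (r * m) := (mb hA1 h3').trans (by
        have : A * (3 * m) = 3 * A * m := by ring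
        rw [this]
        gcongr
        nlinarith)
      have s4 : |b * m| ≤ K₀ * (r * m) := by
        rw [abs_mul, abs_of_pos hm0]
        calc |b| * m ≤ K₀ * r * m := by gcongr
          _ = K₀ * (r * m) := by ring
      have s5 : |d| ≤ 3 * (r * m) := by nlinarith
      have s6 : m ≤ r * m := by nlinarith
      obtain ⟨l1, r1⟩ := abs_le.1 s1
      obtain ⟨l2, r2⟩ := abs_le.1 s2
      obtain ⟨l3, r3⟩ := abs_le.1 s3
      obtain ⟨l4, r4⟩ := abs_le.1 s4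
      obtain ⟨l5, r5⟩ := abs_le.1 s5
      have hEr : E' * (r * m) = 20 * (A ^ 2 * (r * m)) + 10 * (A ^ 2 * K₀ * (r * m))
          + 20 * (3 * A * (r * m)) + 60 * (K₀ * (r * m)) + 30 * (3 * (r * m)) + 60 * (r * m) := by
        rw [hE']; ring
      have h6 : E' * (r * m) ≤ m ^ 2 := by
        calc E' * (r * m) ≤ r * (r * m) := by gcongr
          _ = m ^ 2 := by rw [← hr2]; ring
      have h7 : 0 ≤ a ^ 4 := by positivity
      have h8 : 0 ≤ b ^ 2 := by positivity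
      have h9 : 0 ≤ m ^ 2 := by positivity
      nlinarith
    have hkey : |a| * (30 * m ^ 2) ≤ |20 * (b - 2 * m) * c + 24 * e| := by
      have h6 : a * (a ^ 4 + 10 * a ^ 2 * (b - 2 * m) + 20 * a * c + 15 * (b - 2 * m) ^ 2
        + 30 * (d - 2 * m)) = -(20 * (b - 2 * m) * c + 24 * e) := by linear_combination -hz'
      have h7 : |a| * (a ^ 4 + 10 * a ^ 2 * (b - 2 * m) + 20 * a * c + 15 * (b - 2 * m) ^ 2
        + 30 * (d - 2 * m)) ≤ |20 * (b - 2 * m) * c + 24 * e| := by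
        rw [← abs_neg (20 * (b - 2 * m) * c + 24 * e), ← h6, abs_mul]
        gcongr
        exact le_abs_self _
      exact (mul_le_mul_of_nonneg_left hB (abs_nonneg _)).trans h7
    have hw : |b - 2 * m| ≤ (K₀ + 2) * m := by
      have h6 := abs_sub b (2 * m)
      rw [abs_of_pos (by positivity : 0 < 2 * m)] at h6
      have h7 : K₀ * r ≤ K₀ * m := by gcongr
      linarith
    have h6 : |20 * (b - 2 * m) * c + 24 * e| ≤ 20 * (K₀ + 2) * m * |c| + 24 * |e| := by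
      refine (abs_add_le _ _).trans ?_
      rw [abs_mul, abs_mul, abs_mul, abs_of_pos (by norm_num : (0 : ℝ) < 20),
        abs_of_pos (by norm_num : (0 : ℝ) < 24)]
      have h7 : 20 * |b - 2 * m| * |c| ≤ 20 * ((K₀ + 2) * m) * |c| := by gcongr
      linarith
    have h7 : |a| * (30 * m ^ 2) ≤ 20 * (K₀ + 2) * m * |c| + 24 * |e| := hkey.trans h6
    have h8 : K * (|c| / m + |e| / m ^ 2 + 1 / m ^ 2) * (30 * m ^ 2) =
        30 * K * (m * |c| + |e| + 1) := by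
      field_simp
    have h9 : |a| * (30 * m ^ 2) ≤ K * (|c| / m + |e| / m ^ 2 + 1 / m ^ 2) * (30 * m ^ 2) := by
      rw [h8]
      have h10 : 20 * (K₀ + 2) ≤ K := by rw [hK]; linarith
      have h11 : 24 ≤ K := by
        rw [hK]
        have : 0 ≤ 20 * (K₀ + 2) := by positivity
        linarith
      have h12 : 20 * (K₀ + 2) * m * |c| ≤ K * m * |c| := by gcongr
      have h13 : 24 * |e| ≤ K * |e| := by gcongr
      have h14 : 0 ≤ K * m * |c| := by positivity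
      have h15 : 0 ≤ K * |e| := by positivity
      nlinarith
    exact le_of_mul_le_mul_right h9 (by positivity)

/-- (D7) the dichotomy for radius 7. -/
theorem d7 : T_D7 := by
  intro K₀ hK₀
  -- error constant for the full polynomial
  set E : ℝ := 21 * K₀ ^ 6 + 105 * (K₀ ^ 5 + 4 * K₀ ^ 4) + 105 * (K₀ ^ 4 + 6 * K₀ ^ 3 + 12 * K₀ ^ 2)
    + 70 * (3 * K₀ ^ 4) + 420 * (3 * K₀ ^ 3 + 6 * K₀ ^ 2)
    + 210 * (3 * K₀ ^ 2 + 12 * K₀ + 12) + 280 * (9 * K₀) + 210 * (5 * K₀ ^ 3)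
    + 630 * (5 * K₀ * (K₀ + 2)) + 420 * 15 + 504 * (3 * K₀ ^ 2) + 504 * (3 * (K₀ + 2))
    + 840 * (5 * K₀) + 2160 with hE
  have hE0 : 0 < E := by positivity
  obtain ⟨A, hA⟩ : ∃ A : ℝ, A = E := ⟨E, rfl⟩
  have hA0 : 0 < A := by rw [hA]; exact hE0
  set E' : ℝ := A ^ 6 + 21 * (A ^ 4 * (K₀ + 2)) + 105 * (A ^ 2 * (K₀ + 2) ^ 2)
    + 105 * (12 * K₀ + 6 * K₀ ^ 2 + K₀ ^ 3) + 70 * (3 * A ^ 3) + 420 * (3 * A * (K₀ + 2))
    + 280 * 9 + 210 * (5 * A ^ 2) + 630 * (5 * (K₀ + 2)) + 504 * (3 * A) + 840 * 5 with hE'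
  have hE'0 : 0 < E' := by positivity
  set K : ℝ := E + 210 * (K₀ + 2) ^ 2 + 2100 + 504 * (K₀ + 2) + 2160 with hK
  have hKpos : 0 < K := by positivity
  refine ⟨K, ⌈E' ^ 2⌉₊ + 1, hKpos, ?_⟩
  intro m hm u h1 h2 h3 hz
  have hm1 : 1 ≤ m := by
    have : ((⌈E' ^ 2⌉₊ + 1 : ℕ) : ℝ) = (⌈E' ^ 2⌉₊ : ℝ) + 1 := by push_cast; ring
    rw [this] at hm
    have h0 : (0 : ℝ) ≤ (⌈E' ^ 2⌉₊ : ℝ) := Nat.cast_nonneg _
    linarith
  have hmE : E' ^ 2 ≤ m := by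
    have : ((⌈E' ^ 2⌉₊ + 1 : ℕ) : ℝ) = (⌈E' ^ 2⌉₊ : ℝ) + 1 := by push_cast; ring
    rw [this] at hm
    have h0 := Nat.le_ceil (E' ^ 2)
    linarith
  have hz' := e7 u m
  rw [show bb u m 7 = (BP u 7).eval m from rfl, hz, mul_zero] at hz'
  set r : ℝ := √m with hr
  have hr2 : r ^ 2 = m := Real.sq_sqrt (by linarith)
  have hr1 : 1 ≤ r := by rw [hr, Real.one_le_sqrt]; exact hm1
  have hrE : E' ≤ r := by
    rw [hr]
    exact Real.le_sqrt_of_sq_le hmE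
  have hrm : r ≤ m := by rw [← hr2]; nlinarith
  have hm0 : 0 < m := by linarith
  have hmm : m ≤ m ^ 2 := by nlinarith
  have hmm2 : m ^ 2 ≤ m ^ 3 := by nlinarith [sq_nonneg m]
  have h3' := h3 3 le_rfl (by norm_num)
  have h4' := h3 4 (by norm_num) (by norm_num)
  have h5' := h3 5 (by norm_num) (by norm_num)
  have h6' := h3 6 (by norm_num) (by norm_num)
  have h7' := h3 7 (by norm_num) le_rfl
  generalize u 1 = a at *
  generalize u 2 = b at *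
  generalize u 3 = c at *
  generalize u 4 = d at *
  generalize u 5 = e at *
  generalize u 6 = f at *
  generalize u 7 = g at *
  have hkr : 0 ≤ K₀ * r := by positivity
  have hw2 : |b - 2 * m| ≤ (K₀ + 2) * m := by
    have h6 := abs_sub b (2 * m)
    rw [abs_of_pos (by positivity : 0 < 2 * m)] at h6
    have h7 : K₀ * r ≤ K₀ * m := by gcongr
    linarith
  have hw4 : |d - 2 * m| ≤ 5 * m := by
    have h6 := abs_sub d (2 * m)
    rw [abs_of_pos (by positivity : 0 < 2 * m)] at h6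
    linarith
  have hw6 : |f - 2 * m| ≤ 5 * m := by
    have h6 := abs_sub f (2 * m)
    rw [abs_of_pos (by positivity : 0 < 2 * m)] at h6
    linarith
  -- powers of r
  have p2 : r ^ 2 ≤ m ^ 3 := by rw [hr2]; linarith
  have p3 : r ^ 3 ≤ m ^ 3 := by
    have : m ^ 3 = r ^ 6 := by rw [← hr2]; ring
    rw [this]; exact pow_le_pow_right₀ hr1 (by norm_num)
  have p4 : r ^ 4 ≤ m ^ 3 := by
    have : m ^ 3 = r ^ 6 := by rw [← hr2]; ring
    rw [this]; exact pow_le_pow_right₀ hr1 (by norm_num)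
  have p5 : r ^ 5 ≤ m ^ 3 := by
    have : m ^ 3 = r ^ 6 := by rw [← hr2]; ring
    rw [this]; exact pow_le_pow_right₀ hr1 (by norm_num)
  have p6 : r ^ 6 = m ^ 3 := by rw [← hr2]; ring
  have hmr : m = r ^ 2 := hr2.symm
  have hmabs : |m| ≤ m := le_of_eq (abs_of_pos hm0)
  have hmain : |a| * |a ^ 6 - 42 * m * a ^ 4 + 420 * m ^ 2 * a ^ 2 - 840 * m ^ 3| ≤ E * m ^ 3 := by
    rw [← abs_mul]
    have t1 : |a ^ 5 * b| ≤ K₀ ^ 6 * m ^ 3 := (mb (pb h1 5) h2).trans (le_of_eq (by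
      rw [← p6]; ring))
    have t2 : |a ^ 3 * b ^ 2| ≤ K₀ ^ 5 * m ^ 3 := (mb (pb h1 3) (pb h2 2)).trans (by
      rw [show (K₀ * r) ^ 3 * (K₀ * r) ^ 2 = K₀ ^ 5 * r ^ 5 by ring]; gcongr)
    have t3 : |a ^ 3 * b * m| ≤ K₀ ^ 4 * m ^ 3 := (mb (mb (pb h1 3) h2) hmabs).trans (le_of_eq (by
      rw [← p6, hmr]; ring))
    have t4 : |a * b ^ 3| ≤ K₀ ^ 4 * m ^ 3 := (mb h1 (pb h2 3)).trans (by
      rw [show (K₀ * r) * (K₀ * r) ^ 3 = K₀ ^ 4 * r ^ 4 by ring]; gcongr)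
    have t5 : |a * b ^ 2 * m| ≤ K₀ ^ 3 * m ^ 3 := (mb (mb h1 (pb h2 2)) hmabs).trans (by
      rw [show (K₀ * r) * (K₀ * r) ^ 2 * m = K₀ ^ 3 * r ^ 5 by rw [hmr]; ring]; gcongr)
    have t6 : |a * b * m ^ 2| ≤ K₀ ^ 2 * m ^ 3 := (mb (mb h1 h2) (pb hmabs 2)).trans (le_of_eq (by
      rw [← p6, hmr]; ring))
    have t7 : |a ^ 4 * c| ≤ 3 * K₀ ^ 4 * m ^ 3 := (mb (pb h1 4) h3').trans (le_of_eq (by
      rw [← p6, hmr]; ring))
    have t8 : |a ^ 2 * b * c| ≤ 3 * K₀ ^ 3 * m ^ 3 := (mb (mb (pb h1 2) h2) h3').trans (by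
      rw [show (K₀ * r) ^ 2 * (K₀ * r) * (3 * m) = 3 * K₀ ^ 3 * r ^ 5 by rw [hmr]; ring]; gcongr)
    have t9 : |a ^ 2 * c * m| ≤ 3 * K₀ ^ 2 * m ^ 3 := (mb (mb (pb h1 2) h3') hmabs).trans (le_of_eq (by
      rw [← p6, hmr]; ring))
    have t10 : |b ^ 2 * c| ≤ 3 * K₀ ^ 2 * m ^ 3 := (mb (pb h2 2) h3').trans (by
      rw [show (K₀ * r) ^ 2 * (3 * m) = 3 * K₀ ^ 2 * r ^ 4 by rw [hmr]; ring]; gcongr)
    have t11 : |b * c * m| ≤ 3 * K₀ * m ^ 3 := (mb (mb h2 h3') hmabs).trans (by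
      rw [show (K₀ * r) * (3 * m) * m = 3 * K₀ * r ^ 5 by rw [hmr]; ring]; gcongr)
    have t12 : |c * m ^ 2| ≤ 3 * m ^ 3 := (mb h3' (pb hmabs 2)).trans (le_of_eq (by ring))
    have t13 : |a * c ^ 2| ≤ 9 * K₀ * m ^ 3 := (mb h1 (pb h3' 2)).trans (by
      rw [show (K₀ * r) * (3 * m) ^ 2 = 9 * K₀ * r ^ 5 by rw [hmr]; ring]; gcongr)
    have t14 : |a ^ 3 * (d - 2 * m)| ≤ 5 * K₀ ^ 3 * m ^ 3 := (mb (pb h1 3) hw4).trans (by
      rw [show (K₀ * r) ^ 3 * (5 * m) = 5 * K₀ ^ 3 * r ^ 5 by rw [hmr]; ring]; gcongr)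
    have t15 : |a * (b - 2 * m) * (d - 2 * m)| ≤ 5 * K₀ * (K₀ + 2) * m ^ 3 :=
      (mb (mb h1 hw2) hw4).trans (by
      rw [show (K₀ * r) * ((K₀ + 2) * m) * (5 * m) = 5 * K₀ * (K₀ + 2) * r ^ 5 by rw [hmr]; ring]
      gcongr)
    have t16 : |c * (d - 2 * m)| ≤ 15 * m ^ 3 := (mb h3' hw4).trans (by
      rw [show (3 * m) * (5 * m) = 15 * m ^ 2 by ring]; gcongr)
    have t17 : |a ^ 2 * e| ≤ 3 * K₀ ^ 2 * m ^ 3 := (mb (pb h1 2) h5').trans (by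
      rw [show (K₀ * r) ^ 2 * (3 * m) = 3 * K₀ ^ 2 * r ^ 4 by rw [hmr]; ring]; gcongr)
    have t18 : |(b - 2 * m) * e| ≤ 3 * (K₀ + 2) * m ^ 3 := (mb hw2 h5').trans (by
      rw [show ((K₀ + 2) * m) * (3 * m) = 3 * (K₀ + 2) * m ^ 2 by ring]; gcongr)
    have t19 : |a * (f - 2 * m)| ≤ 5 * K₀ * m ^ 3 := (mb h1 hw6).trans (by
      rw [show (K₀ * r) * (5 * m) = 5 * K₀ * r ^ 3 by rw [hmr]; ring]; gcongr)
    have t20 : |g| ≤ 3 * m ^ 3 := by linarith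
    have key : a * (a ^ 6 - 42 * m * a ^ 4 + 420 * m ^ 2 * a ^ 2 - 840 * m ^ 3) =
        -(21 * (a ^ 5 * b) + 105 * (a ^ 3 * b ^ 2 - 4 * (a ^ 3 * b * m))
        + 105 * (a * b ^ 3 - 6 * (a * b ^ 2 * m) + 12 * (a * b * m ^ 2)) + 70 * (a ^ 4 * c)
        + 420 * (a ^ 2 * b * c - 2 * (a ^ 2 * c * m))
        + 210 * (b ^ 2 * c - 4 * (b * c * m) + 4 * (c * m ^ 2)) + 280 * (a * c ^ 2)
        + 210 * (a ^ 3 * (d - 2 * m)) + 630 * (a * (b - 2 * m) * (d - 2 * m))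
        + 420 * (c * (d - 2 * m)) + 504 * (a ^ 2 * e) + 504 * ((b - 2 * m) * e)
        + 840 * (a * (f - 2 * m)) + 720 * g) := by
      linear_combination -hz'
    rw [key, abs_neg]
    obtain ⟨l1, r1⟩ := abs_le.1 t1
    obtain ⟨l2, r2⟩ := abs_le.1 t2
    obtain ⟨l3, r3⟩ := abs_le.1 t3
    obtain ⟨l4, r4⟩ := abs_le.1 t4
    obtain ⟨l5, r5⟩ := abs_le.1 t5
    obtain ⟨l6, r6⟩ := abs_le.1 t6
    obtain ⟨l7, r7⟩ := abs_le.1 t7
    obtain ⟨l8, r8⟩ := abs_le.1 t8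
    obtain ⟨l9, r9⟩ := abs_le.1 t9
    obtain ⟨l10, r10⟩ := abs_le.1 t10
    obtain ⟨l11, r11⟩ := abs_le.1 t11
    obtain ⟨l12, r12⟩ := abs_le.1 t12
    obtain ⟨l13, r13⟩ := abs_le.1 t13
    obtain ⟨l14, r14⟩ := abs_le.1 t14
    obtain ⟨l15, r15⟩ := abs_le.1 t15
    obtain ⟨l16, r16⟩ := abs_le.1 t16
    obtain ⟨l17, r17⟩ := abs_le.1 t17
    obtain ⟨l18, r18⟩ := abs_le.1 t18
    obtain ⟨l19, r19⟩ := abs_le.1 t19
    obtain ⟨l20, r20⟩ := abs_le.1 t20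
    have hEm : E * m ^ 3 = 21 * (K₀ ^ 6 * m ^ 3) + 105 * (K₀ ^ 5 * m ^ 3 + 4 * (K₀ ^ 4 * m ^ 3))
        + 105 * (K₀ ^ 4 * m ^ 3 + 6 * (K₀ ^ 3 * m ^ 3) + 12 * (K₀ ^ 2 * m ^ 3))
        + 70 * (3 * K₀ ^ 4 * m ^ 3) + 420 * (3 * K₀ ^ 3 * m ^ 3 + 2 * (3 * K₀ ^ 2 * m ^ 3))
        + 210 * (3 * K₀ ^ 2 * m ^ 3 + 4 * (3 * K₀ * m ^ 3) + 4 * (3 * m ^ 3))
        + 280 * (9 * K₀ * m ^ 3) + 210 * (5 * K₀ ^ 3 * m ^ 3)
        + 630 * (5 * K₀ * (K₀ + 2) * m ^ 3) + 420 * (15 * m ^ 3) + 504 * (3 * K₀ ^ 2 * m ^ 3)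
        + 504 * (3 * (K₀ + 2) * m ^ 3) + 840 * (5 * K₀ * m ^ 3) + 720 * (3 * m ^ 3) := by
      rw [hE]; ring
    rw [hEm, abs_le]
    constructor <;> linarith
  constructor
  · intro hν
    have ha : r ≤ |a| := by
      have : r ^ 2 ≤ |a| ^ 2 := by
        rw [hr2, sq_abs]
        linarith
      exact le_of_sq_le_sq this (abs_nonneg _)
    have h6 : r * |a ^ 6 - 42 * m * a ^ 4 + 420 * m ^ 2 * a ^ 2 - 840 * m ^ 3| ≤ E * m ^ 3 :=
      (mul_le_mul_of_nonneg_right ha (abs_nonneg _)).trans hmain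
    have h7 : ((a ^ 2 / m) ^ 3 - 42 * (a ^ 2 / m) ^ 2 + 420 * (a ^ 2 / m)) / 840 - 1 =
        (a ^ 6 - 42 * m * a ^ 4 + 420 * m ^ 2 * a ^ 2 - 840 * m ^ 3) / (840 * m ^ 3) := by
      field_simp
    show |((a ^ 2 / m) ^ 3 - 42 * (a ^ 2 / m) ^ 2 + 420 * (a ^ 2 / m)) / 840 - 1| ≤ K / r
    rw [h7, abs_div, abs_of_pos (by positivity : 0 < 840 * m ^ 3),
      div_le_div_iff₀ (by positivity) (by positivity)]
    have h8 : E * m ^ 3 ≤ K * (840 * m ^ 3) := by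
      have h9 : E ≤ K := by
        rw [hK]
        have : 0 ≤ 210 * (K₀ + 2) ^ 2 + 2100 + 504 * (K₀ + 2) + 2160 := by positivity
        linarith
      have h10 : E * m ^ 3 ≤ K * m ^ 3 := by gcongr
      have h11 : 0 ≤ K * m ^ 3 := by positivity
      linarith
    linarith
  · intro hν
    have hp : 3 * m ^ 3 ≤ -(a ^ 6 - 42 * m * a ^ 4 + 420 * m ^ 2 * a ^ 2 - 840 * m ^ 3) := by
      have hy0 : 0 ≤ a ^ 2 := by positivity
      have e6 : a ^ 6 = (a ^ 2) ^ 3 := by ring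
      have e4 : a ^ 4 = (a ^ 2) ^ 2 := by ring
      rw [e6, e4]
      generalize a ^ 2 = y at *
      have hb : 0 ≤ (53 / 20 * m) ^ 2 + 53 / 20 * m * y + y ^ 2 - 42 * m * (53 / 20 * m + y)
          + 420 * m ^ 2 := by
        have i1 : m * y ≤ m * (53 / 20 * m) := by gcongr
        have i2 : 0 ≤ m * y := by positivity
        have i3 : 0 ≤ y ^ 2 := by positivity
        have i4 : 0 ≤ m ^ 2 := by positivity
        nlinarith
      have hc := mul_nonneg (by linarith : 0 ≤ 53 / 20 * m - y) hb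
      have i5 : 0 ≤ m ^ 3 := by positivity
      nlinarith
    have hA1 : |a| ≤ A := by
      have i1 : |a| * (3 * m ^ 3) ≤ E * m ^ 3 := by
        refine le_trans ?_ hmain
        gcongr
        exact hp.trans (neg_le_abs _)
      have i2 : |a| * 3 ≤ E := by
        have i3 : |a| * 3 * m ^ 3 ≤ E * m ^ 3 := by linarith
        exact le_of_mul_le_mul_right i3 (by positivity)
      rw [hA]
      linarith
    -- the bracket
    have hr0 : 0 < r := by linarith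
    have q0 : 1 ≤ r ^ 5 := one_le_pow₀ hr1
    have q2 : m ≤ r ^ 5 := by
      rw [hmr]; exact pow_le_pow_right₀ hr1 (by norm_num)
    have q3 : r ^ 3 ≤ r ^ 5 := pow_le_pow_right₀ hr1 (by norm_num)
    have q4 : m ^ 2 ≤ r ^ 5 := by
      rw [hmr, ← pow_mul]; exact pow_le_pow_right₀ hr1 (by norm_num)
    have q4' : r ^ 4 ≤ r ^ 5 := pow_le_pow_right₀ hr1 (by norm_num)
    have hB : a ^ 6 + 21 * a ^ 4 * (b - 2 * m) + 105 * a ^ 2 * (b - 2 * m) ^ 2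
        + 105 * (b - 2 * m) ^ 3 + 70 * a ^ 3 * c + 420 * a * (b - 2 * m) * c + 280 * c ^ 2
        + 210 * a ^ 2 * (d - 2 * m) + 630 * (b - 2 * m) * (d - 2 * m) + 504 * a * e
        + 840 * (f - 2 * m) ≤ -(420 * m ^ 3) := by
      have s1 : |a ^ 6| ≤ A ^ 6 * r ^ 5 := (pb hA1 6).trans (by
        have : 0 ≤ A ^ 6 := by positivity
        nlinarith)
      have s2 : |a ^ 4 * (b - 2 * m)| ≤ A ^ 4 * (K₀ + 2) * r ^ 5 := (mb (pb hA1 4) hw2).trans (by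
        rw [← mul_assoc]; gcongr)
      have s3 : |a ^ 2 * (b - 2 * m) ^ 2| ≤ A ^ 2 * (K₀ + 2) ^ 2 * r ^ 5 :=
        (mb (pb hA1 2) (pb hw2 2)).trans (by
        rw [mul_pow, ← mul_assoc]; gcongr)
      have s4 : |b * m ^ 2| ≤ K₀ * r ^ 5 := (mb h2 (pb hmabs 2)).trans (le_of_eq (by
        rw [hmr]; ring))
      have s5 : |b ^ 2 * m| ≤ K₀ ^ 2 * r ^ 5 := (mb (pb h2 2) hmabs).trans (by
        rw [show (K₀ * r) ^ 2 * m = K₀ ^ 2 * r ^ 4 by rw [hmr]; ring]; gcongr)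
      have s6 : |b ^ 3| ≤ K₀ ^ 3 * r ^ 5 := (pb h2 3).trans (by
        rw [mul_pow]; gcongr)
      have s7 : |a ^ 3 * c| ≤ 3 * A ^ 3 * r ^ 5 := (mb (pb hA1 3) h3').trans (by
        rw [show A ^ 3 * (3 * m) = 3 * A ^ 3 * m by ring]; gcongr)
      have s8 : |a * (b - 2 * m) * c| ≤ 3 * A * (K₀ + 2) * r ^ 5 := (mb (mb hA1 hw2) h3').trans (by
        rw [show A * ((K₀ + 2) * m) * (3 * m) = 3 * A * (K₀ + 2) * m ^ 2 by ring]; gcongr)
      have s9 : |c ^ 2| ≤ 9 * r ^ 5 := (pb h3' 2).trans (by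
        rw [show (3 * m) ^ 2 = 9 * m ^ 2 by ring]; gcongr)
      have s10 : |a ^ 2 * (d - 2 * m)| ≤ 5 * A ^ 2 * r ^ 5 := (mb (pb hA1 2) hw4).trans (by
        rw [show A ^ 2 * (5 * m) = 5 * A ^ 2 * m by ring]; gcongr)
      have s11 : |(b - 2 * m) * (d - 2 * m)| ≤ 5 * (K₀ + 2) * r ^ 5 := (mb hw2 hw4).trans (by
        rw [show (K₀ + 2) * m * (5 * m) = 5 * (K₀ + 2) * m ^ 2 by ring]; gcongr)
      have s12 : |a * e| ≤ 3 * A * r ^ 5 := (mb hA1 h5').trans (by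
        rw [show A * (3 * m) = 3 * A * m by ring]; gcongr)
      have s13 : |f - 2 * m| ≤ 5 * r ^ 5 := hw6.trans (by gcongr)
      obtain ⟨l1, r1⟩ := abs_le.1 s1
      obtain ⟨l2, r2⟩ := abs_le.1 s2
      obtain ⟨l3, r3⟩ := abs_le.1 s3
      obtain ⟨l4, r4⟩ := abs_le.1 s4
      obtain ⟨l5, r5⟩ := abs_le.1 s5
      obtain ⟨l6, r6⟩ := abs_le.1 s6
      obtain ⟨l7, r7⟩ := abs_le.1 s7
      obtain ⟨l8, r8⟩ := abs_le.1 s8
      obtain ⟨l9, r9⟩ := abs_le.1 s9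
      obtain ⟨l10, r10⟩ := abs_le.1 s10
      obtain ⟨l11, r11⟩ := abs_le.1 s11
      obtain ⟨l12, r12⟩ := abs_le.1 s12
      obtain ⟨l13, r13⟩ := abs_le.1 s13
      have hEr : E' * r ^ 5 = A ^ 6 * r ^ 5 + 21 * (A ^ 4 * (K₀ + 2) * r ^ 5)
          + 105 * (A ^ 2 * (K₀ + 2) ^ 2 * r ^ 5)
          + 105 * (12 * (K₀ * r ^ 5) + 6 * (K₀ ^ 2 * r ^ 5) + K₀ ^ 3 * r ^ 5)
          + 70 * (3 * A ^ 3 * r ^ 5) + 420 * (3 * A * (K₀ + 2) * r ^ 5) + 280 * (9 * r ^ 5)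
          + 210 * (5 * A ^ 2 * r ^ 5) + 630 * (5 * (K₀ + 2) * r ^ 5) + 504 * (3 * A * r ^ 5)
          + 840 * (5 * r ^ 5) := by
        rw [hE']; ring
      have i6 : E' * r ^ 5 ≤ m ^ 3 := by
        calc E' * r ^ 5 ≤ r * r ^ 5 := by gcongr
          _ = m ^ 3 := by rw [← p6]; ring
      have i7 : 0 ≤ m ^ 3 := by positivity
      have i8 : a ^ 6 + 21 * a ^ 4 * (b - 2 * m) + 105 * a ^ 2 * (b - 2 * m) ^ 2
        + 105 * (b - 2 * m) ^ 3 + 70 * a ^ 3 * c + 420 * a * (b - 2 * m) * c + 280 * c ^ 2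
        + 210 * a ^ 2 * (d - 2 * m) + 630 * (b - 2 * m) * (d - 2 * m) + 504 * a * e
        + 840 * (f - 2 * m) = -(840 * m ^ 3) + (a ^ 6 + 21 * (a ^ 4 * (b - 2 * m))
        + 105 * (a ^ 2 * (b - 2 * m) ^ 2) + 105 * (b ^ 3 - 6 * (b ^ 2 * m) + 12 * (b * m ^ 2))
        + 70 * (a ^ 3 * c) + 420 * (a * (b - 2 * m) * c) + 280 * c ^ 2
        + 210 * (a ^ 2 * (d - 2 * m)) + 630 * ((b - 2 * m) * (d - 2 * m)) + 504 * (a * e)
        + 840 * (f - 2 * m)) := by ring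
      rw [i8]
      linarith
    have hkey : |a| * (420 * m ^ 3) ≤ |210 * (b - 2 * m) ^ 2 * c + 420 * c * (d - 2 * m)
        + 504 * (b - 2 * m) * e + 720 * g| := by
      have i6 : a * (a ^ 6 + 21 * a ^ 4 * (b - 2 * m) + 105 * a ^ 2 * (b - 2 * m) ^ 2
        + 105 * (b - 2 * m) ^ 3 + 70 * a ^ 3 * c + 420 * a * (b - 2 * m) * c + 280 * c ^ 2
        + 210 * a ^ 2 * (d - 2 * m) + 630 * (b - 2 * m) * (d - 2 * m) + 504 * a * e
        + 840 * (f - 2 * m)) = -(210 * (b - 2 * m) ^ 2 * c + 420 * c * (d - 2 * m)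
        + 504 * (b - 2 * m) * e + 720 * g) := by linear_combination -hz'
      rw [← abs_neg (210 * (b - 2 * m) ^ 2 * c + 420 * c * (d - 2 * m)
        + 504 * (b - 2 * m) * e + 720 * g), ← i6, abs_mul]
      gcongr
      refine le_trans ?_ (neg_le_abs _)
      linarith
    have i6 : |210 * (b - 2 * m) ^ 2 * c + 420 * c * (d - 2 * m)
        + 504 * (b - 2 * m) * e + 720 * g| ≤ 210 * ((K₀ + 2) * m) ^ 2 * |c| + 420 * (|c| * (5 * m))
        + 504 * ((K₀ + 2) * m * |e|) + 720 * (3 * m) := by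
      have j1 : |(b - 2 * m) ^ 2 * c| ≤ ((K₀ + 2) * m) ^ 2 * |c| := mb (pb hw2 2) le_rfl
      have j2 : |c * (d - 2 * m)| ≤ |c| * (5 * m) := mb le_rfl hw4
      have j3 : |(b - 2 * m) * e| ≤ (K₀ + 2) * m * |e| := mb hw2 le_rfl
      obtain ⟨l1, r1⟩ := abs_le.1 j1
      obtain ⟨l2, r2⟩ := abs_le.1 j2
      obtain ⟨l3, r3⟩ := abs_le.1 j3
      obtain ⟨l4, r4⟩ := abs_le.1 h7'
      rw [abs_le]
      constructor <;> linarith
    have i7 : |a| * (420 * m ^ 3) ≤ 210 * ((K₀ + 2) * m) ^ 2 * |c| + 420 * (|c| * (5 * m))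
        + 504 * ((K₀ + 2) * m * |e|) + 720 * (3 * m) := hkey.trans i6
    have i8 : K * (|c| / m + |e| / m ^ 2 + 1 / m ^ 2) * (420 * m ^ 3) =
        420 * K * (m ^ 2 * |c| + m * |e| + m) := by
      field_simp
    have i9 : |a| * (420 * m ^ 3) ≤ K * (|c| / m + |e| / m ^ 2 + 1 / m ^ 2) * (420 * m ^ 3) := by
      rw [i8]
      have k1 : 210 * (K₀ + 2) ^ 2 + 2100 ≤ K := by
        rw [hK]
        have : 0 ≤ 504 * (K₀ + 2) + 2160 := by positivity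
        linarith
      have k2 : 504 * (K₀ + 2) ≤ K := by
        rw [hK]
        have : 0 ≤ 210 * (K₀ + 2) ^ 2 + 2100 + 2160 := by positivity
        linarith
      have k3 : 2160 ≤ K := by
        rw [hK]
        have : 0 ≤ 210 * (K₀ + 2) ^ 2 + 2100 + 504 * (K₀ + 2) := by positivity
        linarith
      have k4 : (210 * (K₀ + 2) ^ 2 + 2100) * (m ^ 2 * |c|) ≤ K * (m ^ 2 * |c|) := by gcongr
      have k5 : 504 * (K₀ + 2) * (m * |e|) ≤ K * (m * |e|) := by gcongr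
      have k6 : 2160 * m ≤ K * m := by gcongr
      have k7 : m * |c| ≤ m ^ 2 * |c| := by gcongr
      have k8 : 0 ≤ K * (m ^ 2 * |c|) := by positivity
      have k9 : 0 ≤ K * (m * |e|) := by positivity
      have k10 : 0 ≤ K * m := by positivity
      have k11 : 210 * ((K₀ + 2) * m) ^ 2 * |c| = 210 * (K₀ + 2) ^ 2 * (m ^ 2 * |c|) := by ring
      rw [k11] at i7
      refine i7.trans ?_
      have k12 : 210 * (K₀ + 2) ^ 2 * (m ^ 2 * |c|) + 420 * (|c| * (5 * m)) ≤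
          K * (m ^ 2 * |c|) := by
        linarith
      linarith
    exact le_of_mul_le_mul_right i9 (by positivity)

end Pool.Agent.H92.GB
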