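import Pool.Agent.H23.GB.Targets
import Pool.Agent.H42.GA.LC

/-!
# Perfect spanning sets of radius 5 and 7: square root bound (`T_SR`)
-/

set_option autoImplicit false

open Finset Polynomial
open scoped Classical

namespace Pool.Agent.H92.GB

open Pool.Agent.H23.GW Pool.Agent.H23.GA Pool.Agent.H23.GB Pool.Agent.H42.GA

lemma bb_le {v : ℕ → ℝ} {m M D : ℝ} {s : ℕ} (hM : 1 ≤ M) (h0 : |v 1| ≤ M)
    (hk : ∀ k, 1 ≤ k → k < s → |ff v m k| ≤ D) (hD : D ≤ M ^ 2) (n : ℕ) (hn : n ≤ s) :
    |bb v m n| ≤ M ^ n := by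
  induction n using Nat.strong_induction_on with
  | _ n ih =>
    cases n with
    | zero => rw [bb_zero]; simp
    | succ n =>
      have h1 : |((n : ℝ) + 1) * bb v m (n + 1)| ≤ ((n : ℝ) + 1) * M ^ (n + 1) := by
        rw [bb_succ]
        refine (Finset.abs_sum_le_sum_abs _ _).trans ?_
        calc ∑ k ∈ range (n + 1), |ff v m k * bb v m (n - k)|
            ≤ ∑ k ∈ range (n + 1), M ^ (n + 1) := by
              apply Finset.sum_le_sum
              intro k hk'
              rw [Finset.mem_range] at hk'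
              rw [abs_mul]
              have h2 := ih (n - k) (by omega) (by omega)
              have h3 : |ff v m k| ≤ M ^ (k + 1) := by
                rcases Nat.eq_zero_or_pos k with hk0 | hk0
                · subst hk0
                  unfold ff
                  rw [if_neg (by decide), sub_zero, zero_add, pow_one]
                  exact h0
                · calc |ff v m k| ≤ D := hk k hk0 (by omega)
                    _ ≤ M ^ 2 := hD
                    _ ≤ M ^ (k + 1) := pow_le_pow_right₀ hM (by omega)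
              calc |ff v m k| * |bb v m (n - k)| ≤ M ^ (k + 1) * M ^ (n - k) := by gcongr
                _ = M ^ (n + 1) := by rw [← pow_add]; congr 1; omega
          _ = ((n : ℝ) + 1) * M ^ (n + 1) := by
              rw [Finset.sum_const, Finset.card_range, nsmul_eq_mul]
              push_cast
              ring
      rw [abs_mul, abs_of_pos (by positivity : (0 : ℝ) < (n : ℝ) + 1)] at h1
      exact le_of_mul_le_mul_left h1 (by positivity)

lemma bb_cl {v : ℕ → ℝ} {m M D : ℝ} {s : ℕ} (hM : 1 ≤ M) (h0 : |v 1| ≤ M) (hD0 : 0 ≤ D)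
    (hk : ∀ k, 1 ≤ k → k < s → |ff v m k| ≤ D) (hD : D ≤ M ^ 2) (n : ℕ) (hn : n ≤ s) :
    M ^ 2 * |bb v m n - v 1 ^ n / (n.factorial : ℝ)| ≤ D * M ^ n := by
  induction n with
  | zero =>
    rw [bb_zero]
    simp
    exact hD0
  | succ n ih =>
    have ih' := ih (by omega)
    have hn1 : (n : ℝ) + 1 ≠ 0 := by positivity
    have hf : ((n.factorial : ℕ) : ℝ) ≠ 0 := by exact_mod_cast Nat.factorial_ne_zero n
    have e1 : ((n : ℝ) + 1) * (bb v m (n + 1) - v 1 ^ (n + 1) / ((n + 1).factorial : ℝ))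
        = v 1 * (bb v m n - v 1 ^ n / (n.factorial : ℝ))
          + ∑ k ∈ range n, ff v m (k + 1) * bb v m (n - (k + 1)) := by
      rw [mul_sub, bb_succ, Finset.sum_range_succ', Nat.sub_zero]
      have e2 : ff v m 0 = v 1 := by
        unfold ff
        rw [if_neg (by decide)]
        ring
      rw [e2, Nat.factorial_succ]
      push_cast
      field_simp
      ring
    have e4 : M ^ 2 * |∑ k ∈ range n, ff v m (k + 1) * bb v m (n - (k + 1))| ≤
        n * (D * M ^ (n + 1)) := by
      calc M ^ 2 * |∑ k ∈ range n, ff v m (k + 1) * bb v m (n - (k + 1))|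
          ≤ M ^ 2 * ∑ k ∈ range n, |ff v m (k + 1) * bb v m (n - (k + 1))| := by
            gcongr
            exact Finset.abs_sum_le_sum_abs _ _
        _ = ∑ k ∈ range n, M ^ 2 * |ff v m (k + 1) * bb v m (n - (k + 1))| := by
            rw [Finset.mul_sum]
        _ ≤ ∑ k ∈ range n, D * M ^ (n + 1) := by
            apply Finset.sum_le_sum
            intro k hk'
            rw [Finset.mem_range] at hk'
            rw [abs_mul]
            have h2 := bb_le hM h0 hk hD (n - (k + 1)) (by omega)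
            have h3 := hk (k + 1) (by omega) (by omega)
            calc M ^ 2 * (|ff v m (k + 1)| * |bb v m (n - (k + 1))|)
                ≤ M ^ 2 * (D * M ^ (n - (k + 1))) := by gcongr
              _ = D * M ^ (2 + (n - (k + 1))) := by rw [pow_add]; ring
              _ ≤ D * M ^ (n + 1) :=
                mul_le_mul_of_nonneg_left (pow_le_pow_right₀ hM (by omega)) hD0
        _ = n * (D * M ^ (n + 1)) := by
            rw [Finset.sum_const, Finset.card_range, nsmul_eq_mul]
    have h1 : ((n : ℝ) + 1) * (M ^ 2 * |bb v m (n + 1) - v 1 ^ (n + 1) / ((n + 1).factorial : ℝ)|)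
        ≤ ((n : ℝ) + 1) * (D * M ^ (n + 1)) := by
      calc ((n : ℝ) + 1) * (M ^ 2 * |bb v m (n + 1) - v 1 ^ (n + 1) / ((n + 1).factorial : ℝ)|)
          = M ^ 2 * |((n : ℝ) + 1) * (bb v m (n + 1) - v 1 ^ (n + 1) / ((n + 1).factorial : ℝ))| := by
            rw [abs_mul, abs_of_pos (by positivity : (0 : ℝ) < (n : ℝ) + 1)]
            ring
        _ = M ^ 2 * |v 1 * (bb v m n - v 1 ^ n / (n.factorial : ℝ))
            + ∑ k ∈ range n, ff v m (k + 1) * bb v m (n - (k + 1))| := by rw [e1]
        _ ≤ M ^ 2 * (|v 1 * (bb v m n - v 1 ^ n / (n.factorial : ℝ))|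
            + |∑ k ∈ range n, ff v m (k + 1) * bb v m (n - (k + 1))|) := by
            gcongr
            exact abs_add_le _ _
        _ = |v 1| * (M ^ 2 * |bb v m n - v 1 ^ n / (n.factorial : ℝ)|)
            + M ^ 2 * |∑ k ∈ range n, ff v m (k + 1) * bb v m (n - (k + 1))| := by
            rw [abs_mul]; ring
        _ ≤ M * (D * M ^ n) + n * (D * M ^ (n + 1)) := by gcongr
        _ = ((n : ℝ) + 1) * (D * M ^ (n + 1)) := by ring
    exact le_of_mul_le_mul_left h1 (by positivity)

/-- (SR) square root bound. -/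
theorem sr : T_SR := by
  intro s hs
  have hf : (1 : ℝ) ≤ (s.factorial : ℝ) := by exact_mod_cast Nat.factorial_pos s
  refine ⟨7 * (s.factorial : ℝ), by positivity, ?_⟩
  intro X _ _ u m hm hu0 hu χ hχ
  set K : ℝ := 7 * (s.factorial : ℝ) with hK
  by_contra hcon
  push Not at hcon
  -- the maximum
  obtain ⟨χ₀, hχ₀, hmax⟩ : ∃ χ₀ : X, χ₀ ≠ 0 ∧ ∀ ψ : X, ψ ≠ 0 → |u ψ| ≤ |u χ₀| := by
    have hfin : Set.Finite {ψ : X | ψ ≠ 0} := Set.toFinite _
    obtain ⟨χ₀, h1, h2⟩ := Set.exists_max_image {ψ : X | ψ ≠ 0} (fun ψ => |u ψ|) hfin ⟨χ, hχ⟩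
    exact ⟨χ₀, h1, fun ψ hψ => h2 ψ hψ⟩
  set M : ℝ := |u χ₀| with hMdef
  have hsm : 1 ≤ √m := by
    rw [Real.one_le_sqrt]; exact hm
  have hKM : K * √m < M := hcon.trans_le (hmax χ hχ)
  have hK7 : 7 ≤ K := by rw [hK]; linarith
  have hM1 : K ≤ M := by
    have : K * 1 ≤ K * √m := by gcongr
    linarith
  have hM : 1 ≤ M := by linarith
  have hmM : K ^ 2 * m ≤ M ^ 2 := by
    have h1 : (K * √m) ^ 2 ≤ M ^ 2 := by
      apply pow_le_pow_left₀ (by positivity) hKM.le
    rw [mul_pow, Real.sq_sqrt (by linarith)] at h1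
    exact h1
  have hKM2 : K * M ≤ M ^ 2 := by nlinarith
  have hD : K * (M + 5 * m) ≤ 6 * M ^ 2 := by
    have h1 : K * m ≤ K ^ 2 * m := by
      have h2 : 0 ≤ K * m * (K - 1) := by
        apply mul_nonneg (by positivity); linarith
      nlinarith
    have h3 : 5 * (K * m) ≤ 5 * M ^ 2 := by linarith
    nlinarith
  set D : ℝ := M + 5 * m with hDdef
  have hD0 : 0 ≤ D := by positivity
  have hDM : D ≤ M ^ 2 := by nlinarith
  set v : ℕ → ℝ := fun k => u (k • χ₀) with hv
  have hv1 : v 1 = u χ₀ := by simp [hv]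
  have hvk : ∀ k, |v k| ≤ M + (2 * m + 1) := by
    intro k
    by_cases h : k • χ₀ = 0
    · simp only [hv, h, hu0]
      rw [abs_of_nonneg (by linarith)]
      linarith
    · have := hmax _ h
      simp only [hv]
      linarith
  have hff : ∀ k, 1 ≤ k → k < s → |ff v m k| ≤ D := by
    intro k _ _
    unfold ff
    have h1 := hvk (k + 1)
    have h2 : |if Even (k + 1) then 2 * m else 0| ≤ 2 * m := by
      split_ifs
      · rw [abs_of_nonneg (by linarith)]
      · rw [abs_zero]; linarith
    have h3 := abs_sub (v (k + 1)) (if Even (k + 1) then 2 * m else 0)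
    rw [hDdef]
    linarith
  have h0 : |v 1| ≤ M := by rw [hv1]
  have hcl := bb_cl hM h0 hD0 hff hDM s le_rfl
  have hz : bb v m s = 0 := hu χ₀ hχ₀
  rw [hz, zero_sub, abs_neg, abs_div, abs_pow, hv1, ← hMdef,
    abs_of_pos (by positivity : (0 : ℝ) < (s.factorial : ℝ))] at hcl
  -- M ^ 2 * (M ^ s / s!) ≤ D * M ^ s
  have h1 : M ^ 2 ≤ D * s.factorial := by
    have h2 : M ^ 2 * M ^ s ≤ D * s.factorial * M ^ s := by
      have h3 : M ^ 2 * (M ^ s / (s.factorial : ℝ)) * s.factorial = M ^ 2 * M ^ s := by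
        field_simp
      calc M ^ 2 * M ^ s = M ^ 2 * (M ^ s / (s.factorial : ℝ)) * s.factorial := h3.symm
        _ ≤ D * M ^ s * s.factorial := by gcongr
        _ = D * s.factorial * M ^ s := by ring
    exact le_of_mul_le_mul_right h2 (by positivity)
  have h2 : 7 * M ^ 2 ≤ K * D := by
    rw [hK]; linarith
  have h3 : 0 < M ^ 2 := by positivity
  linarith

end Pool.Agent.H92.GB
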